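import Pool.Agent.J4H4.NG.Stm
import Pool.Agent.J4H8.DN.H

/-! # helper31: (GRO), growth of the function at negative times -/

set_option autoImplicit false

namespace Pool.Agent.J4H31.NG

open Complex MeasureTheory Filter Topology Set
open Pool.Agent.J4H4.NG

/-- the weight -/
noncomputable def W (b u : ℝ) : ℝ := Real.exp (-b * u ^ 2) * J4H2.DN.Phi u

lemma Hd_eq (b : ℝ) (z : ℂ) : J4H2.DN.Hd (-b) z = ∫ u in Ioi (0 : ℝ), ((W b u : ℝ) : ℂ) * Complex.cos (z * u) := rfl

lemma W_cont (b : ℝ) : Continuous (W b) := by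
  have h : J4H2.DN.Phi = Pool.Agent.Helper242.RK.Phi := funext fun u => J4H8.DN.Phi_eq u
  have := Pool.Agent.Helper242.RK.continuous_Phi
  unfold W
  rw [h]
  fun_prop

lemma W_pos (b u : ℝ) : 0 < W b u := by
  unfold W
  rw [J4H8.DN.Phi_eq]
  have := Pool.Agent.Helper242.RK.Phi_pos u
  positivity

lemma W_low (b : ℝ) {u : ℝ} (hu : 0 ≤ u) : Real.exp (-b * u ^ 2 - Real.pi * Real.exp (4 * u)) ≤ W b u := by
  unfold W
  rw [J4H8.DN.Phi_eq]
  have := Pool.Agent.Helper242.RK.Phi_lower hu
  calc Real.exp (-b * u ^ 2 - Real.pi * Real.exp (4 * u)) =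
      Real.exp (-b * u ^ 2) * Real.exp (-(Real.pi * Real.exp (4 * u))) := by
        rw [← Real.exp_add]
        ring_nf
    _ ≤ _ := by gcongr

lemma W_up : ∃ A : ℝ, 1 ≤ A ∧ ∀ (b u : ℝ), 0 ≤ b → 0 ≤ u → ∀ (M : ℝ) (N : ℕ), 10 + M ≤ 4 * N →
    W b u * Real.exp (M * u) ≤ A * N.factorial * Real.exp (-u) := by
  obtain ⟨A, hA, h⟩ := Pool.Agent.Helper242.RK.PhiC_bound (Y := 0) le_rfl (by positivity)
  refine ⟨max A 1, le_max_right _ _, fun b u hb hu M N hN => ?_⟩
  have h1 := h ((u : ℝ) : ℂ) (by simp)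
  rw [Pool.Agent.Helper242.RK.PhiC_ofReal, Complex.norm_real, Real.norm_eq_abs, Complex.ofReal_re, mul_zero,
    Real.cos_zero, mul_one, abs_of_nonneg hu] at h1
  have h2 : J4H2.DN.Phi u ≤ A * Real.exp (9 * u - Real.pi * Real.exp (4 * u)) := by
    rw [J4H8.DN.Phi_eq]
    exact (le_abs_self _).trans h1
  have h3 : Real.exp (-b * u ^ 2) ≤ 1 := by
    rw [Real.exp_le_one_iff]
    nlinarith [mul_nonneg hb (sq_nonneg u)]
  obtain ⟨s, hs⟩ : ∃ s, s = Real.exp (4 * u) := ⟨_, rfl⟩
  have hs0 : 0 < s := by rw [hs]; exact Real.exp_pos _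
  have h4 : s ^ N / N.factorial ≤ Real.exp s := Real.pow_div_factorial_le_exp s hs0.le N
  have hN0 : (0 : ℝ) < N.factorial := by exact_mod_cast N.factorial_pos
  have h5 : s ^ N * Real.exp (-s) ≤ N.factorial := by
    rw [div_le_iff₀ hN0] at h4
    rw [Real.exp_neg, ← div_eq_mul_inv, div_le_iff₀ (Real.exp_pos _)]
    linarith
  have h6 : Real.exp ((10 + M) * u) ≤ s ^ N := by
    rw [hs, ← Real.exp_nat_mul]
    apply Real.exp_le_exp.2
    nlinarith
  have h7 : Real.exp (-(Real.pi * s)) ≤ Real.exp (-s) := by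
    apply Real.exp_le_exp.2
    nlinarith [Real.pi_gt_three]
  unfold W
  have hW0 : 0 ≤ J4H2.DN.Phi u := by
    rw [J4H8.DN.Phi_eq]
    exact (Pool.Agent.Helper242.RK.Phi_pos u).le
  calc Real.exp (-b * u ^ 2) * J4H2.DN.Phi u * Real.exp (M * u) ≤
      1 * (A * Real.exp (9 * u - Real.pi * Real.exp (4 * u))) * Real.exp (M * u) := by gcongr
    _ = A * (Real.exp ((10 + M) * u) * Real.exp (-(Real.pi * s))) * Real.exp (-u) := by
        rw [hs, one_mul, mul_assoc, mul_assoc, ← Real.exp_add, ← Real.exp_add, ← Real.exp_add]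
        ring_nf
    _ ≤ A * (s ^ N * Real.exp (-s)) * Real.exp (-u) := by gcongr
    _ ≤ A * N.factorial * Real.exp (-u) := by gcongr
    _ ≤ max A 1 * N.factorial * Real.exp (-u) := by
        gcongr
        exact le_max_left _ _

lemma exp_int : IntegrableOn (fun u : ℝ => Real.exp (-u)) (Ioi 0) := integrableOn_exp_neg_Ioi 0

lemma W_int {b : ℝ} (hb : 0 ≤ b) (M : ℝ) : IntegrableOn (fun u => W b u * Real.exp (M * u)) (Ioi 0) := by
  obtain ⟨A, hA, h⟩ := W_up
  have hc := W_cont b
  refine Integrable.mono' (exp_int.const_mul (A * (⌈(10 + M) / 4⌉₊).factorial)) ?_ ?_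
  · have : Continuous fun u => W b u * Real.exp (M * u) := by fun_prop
    exact this.aestronglyMeasurable
  · refine (ae_restrict_iff' measurableSet_Ioi).2 (Eventually.of_forall fun u hu => ?_)
    have h0 := W_pos b u
    rw [Real.norm_of_nonneg (by positivity)]
    apply h b u hb (mem_Ioi.1 hu).le
    have := Nat.le_ceil ((10 + M) / 4)
    linarith

lemma norm_cos_le (w : ℂ) : ‖Complex.cos w‖ ≤ Real.exp ‖w‖ := by
  rw [Complex.cos, norm_div]
  have h1 : ‖cexp (w * I)‖ ≤ Real.exp ‖w‖ := by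
    rw [norm_exp]
    apply Real.exp_le_exp.2
    refine (le_abs_self _).trans ((abs_re_le_norm _).trans ?_)
    simp
  have h2 : ‖cexp (-w * I)‖ ≤ Real.exp ‖w‖ := by
    rw [norm_exp]
    apply Real.exp_le_exp.2
    refine (le_abs_self _).trans ((abs_re_le_norm _).trans ?_)
    simp
  have h3 := norm_add_le (cexp (w * I)) (cexp (-w * I))
  rw [show ‖(2 : ℂ)‖ = 2 by simp]
  linarith

lemma norm_sin_le (w : ℂ) : ‖Complex.sin w‖ ≤ Real.exp ‖w‖ := by
  have h0 : Complex.sin w = (cexp (-w * I) - cexp (w * I)) * I / 2 := rfl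
  rw [h0, norm_div, norm_mul, norm_I, mul_one]
  have h1 : ‖cexp (w * I)‖ ≤ Real.exp ‖w‖ := by
    rw [norm_exp]
    apply Real.exp_le_exp.2
    refine (le_abs_self _).trans ((abs_re_le_norm _).trans ?_)
    simp
  have h2 : ‖cexp (-w * I)‖ ≤ Real.exp ‖w‖ := by
    rw [norm_exp]
    apply Real.exp_le_exp.2
    refine (le_abs_self _).trans ((abs_re_le_norm _).trans ?_)
    simp
  have h3 := norm_sub_le (cexp (-w * I)) (cexp (w * I))
  rw [show ‖(2 : ℂ)‖ = 2 by simp]
  linarith

lemma Hd_up : ∃ A : ℝ, 1 ≤ A ∧ ∀ (b : ℝ), 0 ≤ b → ∀ (z : ℂ) (N : ℕ), 10 + ‖z‖ ≤ 4 * N →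
    ‖J4H2.DN.Hd (-b) z‖ ≤ A * N.factorial := by
  obtain ⟨A, hA, h⟩ := W_up
  refine ⟨A, hA, fun b hb z N hN => ?_⟩
  rw [Hd_eq]
  have h1 : ‖∫ u in Ioi (0 : ℝ), ((W b u : ℝ) : ℂ) * Complex.cos (z * u)‖ ≤
      ∫ u in Ioi (0 : ℝ), A * N.factorial * Real.exp (-u) := by
    refine norm_integral_le_of_norm_le (exp_int.const_mul _) ?_
    refine (ae_restrict_iff' measurableSet_Ioi).2 (Eventually.of_forall fun u hu => ?_)
    have hu0 : 0 < u := hu
    rw [norm_mul, norm_real, Real.norm_of_nonneg (W_pos b u).le]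
    refine le_trans ?_ (h b u hb hu0.le ‖z‖ N hN)
    apply mul_le_mul_of_nonneg_left _ (W_pos b u).le
    refine (norm_cos_le _).trans ?_
    rw [norm_mul, norm_real, Real.norm_of_nonneg hu0.le]
  refine h1.trans (le_of_eq ?_)
  rw [integral_const_mul, integral_exp_neg_Ioi]
  simp

lemma Hd_low {b : ℝ} (hb : 0 ≤ b) {y p m : ℝ} (hy : 0 ≤ y) (hp : 0 ≤ p)
    (h : ∀ u : ℝ, p ≤ u → u ≤ p + 1 → m ≤ W b u * Real.cosh (y * u)) : m ≤ ‖J4H2.DN.Hd (-b) (I * y)‖ := by
  have hc := W_cont b
  have h1 : J4H2.DN.Hd (-b) (I * y) = ((∫ u in Ioi (0 : ℝ), W b u * Real.cosh (y * u) : ℝ) : ℂ) := by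
    rw [Hd_eq, ← integral_complex_ofReal]
    congr 1
    funext u
    push_cast
    rw [show I * (y : ℂ) * u = (y * u : ℂ) * I by ring, Complex.cos_mul_I]
  have hint : IntegrableOn (fun u => W b u * Real.cosh (y * u)) (Ioi 0) := by
    refine Integrable.mono' (W_int hb y) ?_ ?_
    · have : Continuous fun u => W b u * Real.cosh (y * u) := by fun_prop
      exact this.aestronglyMeasurable
    · refine (ae_restrict_iff' measurableSet_Ioi).2 (Eventually.of_forall fun u hu => ?_)
      have hu0 : 0 < u := hu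
      have h0 := W_pos b u
      have h2 := Real.cosh_pos (y * u)
      rw [Real.norm_of_nonneg (by positivity)]
      apply mul_le_mul_of_nonneg_left _ h0.le
      rw [Real.cosh_eq]
      have h3 : Real.exp (-(y * u)) ≤ Real.exp (y * u) := Real.exp_le_exp.2 (by nlinarith)
      linarith
  rw [h1, norm_real]
  refine le_trans ?_ (le_abs_self _)
  have hsub : Ioc p (p + 1) ⊆ Ioi (0 : ℝ) := fun u hu => lt_of_le_of_lt hp hu.1
  have h2 : ∫ u in Ioc p (p + 1), W b u * Real.cosh (y * u) ≤ ∫ u in Ioi (0 : ℝ), W b u * Real.cosh (y * u) := by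
    apply setIntegral_mono_set hint _ hsub.eventuallyLE
    refine Eventually.of_forall fun u => ?_
    have h0 := W_pos b u
    have h2 := Real.cosh_pos (y * u)
    simp only [Pi.zero_apply]
    positivity
  refine le_trans ?_ h2
  have h3 : ∫ _ in Ioc p (p + 1), m ≤ ∫ u in Ioc p (p + 1), W b u * Real.cosh (y * u) := by
    apply setIntegral_mono_on _ (hint.mono_set hsub) measurableSet_Ioc
    · intro u hu
      exact h u hu.1.le hu.2
    · exact integrableOn_const (by simp)
  simpa using h3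

lemma Hd_diff {b : ℝ} (hb : 0 ≤ b) : Differentiable ℂ (J4H2.DN.Hd (-b)) := by
  intro z
  have hc := W_cont b
  have key := hasDerivAt_integral_of_dominated_loc_of_deriv_le (𝕜 := ℂ) (μ := volume.restrict (Ioi (0 : ℝ)))
    (F := fun (z : ℂ) (u : ℝ) => ((W b u : ℝ) : ℂ) * Complex.cos (z * u))
    (F' := fun (z : ℂ) (u : ℝ) => ((W b u : ℝ) : ℂ) * (-Complex.sin (z * u) * u))
    (x₀ := z) (s := Metric.ball z 1) (bound := fun u => W b u * Real.exp ((‖z‖ + 2) * u))
    (Metric.ball_mem_nhds z one_pos) ?_ ?_ ?_ ?_ (W_int hb _) ?_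
  · exact key.2.differentiableAt
  · refine Eventually.of_forall fun w => ?_
    have : Continuous fun u : ℝ => ((W b u : ℝ) : ℂ) * Complex.cos (w * u) := by fun_prop
    exact this.aestronglyMeasurable
  · refine Integrable.mono' (W_int hb ‖z‖) ?_ ?_
    · have : Continuous fun u : ℝ => ((W b u : ℝ) : ℂ) * Complex.cos (z * u) := by fun_prop
      exact this.aestronglyMeasurable
    · refine (ae_restrict_iff' measurableSet_Ioi).2 (Eventually.of_forall fun u hu => ?_)
      have hu0 : 0 < u := hu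
      rw [norm_mul, norm_real, Real.norm_of_nonneg (W_pos b u).le]
      apply mul_le_mul_of_nonneg_left _ (W_pos b u).le
      refine (norm_cos_le _).trans ?_
      rw [norm_mul, norm_real, Real.norm_of_nonneg hu0.le]
  · have : Continuous fun u : ℝ => ((W b u : ℝ) : ℂ) * (-Complex.sin (z * u) * u) := by fun_prop
    exact this.aestronglyMeasurable
  · refine (ae_restrict_iff' measurableSet_Ioi).2 (Eventually.of_forall fun u hu w hw => ?_)
    have hu0 : 0 < u := hu
    rw [norm_mul, norm_real, Real.norm_of_nonneg (W_pos b u).le]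
    apply mul_le_mul_of_nonneg_left _ (W_pos b u).le
    rw [norm_mul, norm_neg, norm_real, Real.norm_of_nonneg hu0.le]
    have h1 : ‖w‖ ≤ ‖z‖ + 1 := by
      have h2 : ‖w - z‖ < 1 := by simpa [dist_eq_norm] using hw
      have h3 := norm_le_norm_add_norm_sub' w z
      linarith
    have h4 := norm_sin_le (w * u)
    rw [norm_mul, norm_real, Real.norm_of_nonneg hu0.le] at h4
    have h5 : u ≤ Real.exp u := by linarith [Real.add_one_le_exp u]
    calc ‖Complex.sin (w * u)‖ * u ≤ Real.exp (‖w‖ * u) * Real.exp u := by gcongr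
      _ = Real.exp ((‖w‖ + 1) * u) := by rw [← Real.exp_add]; ring_nf
      _ ≤ _ := by
          apply Real.exp_le_exp.2
          nlinarith
  · refine Eventually.of_forall fun u w _ => ?_
    have h1 : HasDerivAt (fun w : ℂ => w * (u : ℂ)) (u : ℂ) w := by
      simpa using (hasDerivAt_id w).mul_const (u : ℂ)
    exact (h1.ccos).const_mul _

theorem t_GRO : S_GRO := by
  intro b hb
  obtain ⟨A, hA, hup⟩ := Hd_up
  refine ⟨max (Real.exp (80 + 6 * (b + 1))) (max A 14 + 100), ?_, ?_, ?_, ?_, Hd_diff hb.le⟩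
  · refine le_trans ?_ (le_max_right _ _)
    linarith [le_max_right A 14]
  · intro z hz
    obtain ⟨r, hr⟩ : ∃ r, r = ‖z‖ := ⟨_, rfl⟩
    rw [← hr] at hz ⊢
    have hr1 : max A 14 + 100 ≤ r := (le_max_right _ _).trans hz
    have hrA : A ≤ r := by linarith [le_max_left A 14]
    have hr14 : 114 ≤ r := by linarith [le_max_right A 14]
    have hr0 : 0 < r := by linarith
    have hlog : 1 ≤ Real.log r := by
      rw [Real.le_log_iff_exp_le hr0]
      linarith [Real.exp_one_lt_d9]
    obtain ⟨N, hN⟩ : ∃ N, N = ⌈(10 + r) / 4⌉₊ := ⟨_, rfl⟩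
    have h1 : (10 + r) / 4 ≤ N := by rw [hN]; exact Nat.le_ceil _
    have h2 : (N : ℝ) < (10 + r) / 4 + 1 := by rw [hN]; exact Nat.ceil_lt_add_one (by positivity)
    have h3 : (N : ℝ) ≤ r / 2 := by linarith
    have h4 := hup b hb.le z N (by rw [← hr]; linarith)
    refine h4.trans ?_
    have h5 : (N.factorial : ℝ) ≤ (N : ℝ) ^ N := by exact_mod_cast Nat.factorial_le_pow N
    have h6 : (N : ℝ) ^ N ≤ Real.exp (r / 2 * Real.log r) := by
      calc (N : ℝ) ^ N ≤ r ^ N := pow_le_pow_left₀ (Nat.cast_nonneg N) (by linarith) N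
        _ = Real.exp (N * Real.log r) := by
            rw [mul_comm, Real.exp_mul, Real.exp_log hr0, Real.rpow_natCast]
        _ ≤ _ := by
            apply Real.exp_le_exp.2
            gcongr
    have h7 : A ≤ Real.exp (r / 2 * Real.log r) := by
      calc A ≤ r := hrA
        _ = Real.exp (Real.log r) := (Real.exp_log hr0).symm
        _ ≤ _ := by
            apply Real.exp_le_exp.2
            nlinarith
    calc A * N.factorial ≤ Real.exp (r / 2 * Real.log r) * Real.exp (r / 2 * Real.log r) := by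
          gcongr
          exact h5.trans h6
      _ = _ := by
          rw [← Real.exp_add]
          ring_nf
  · intro y hy
    have hy1 : Real.exp (80 + 6 * (b + 1)) ≤ y := (le_max_left _ _).trans hy
    have hy0 : 0 < y := lt_of_lt_of_le (Real.exp_pos _) hy1
    obtain ⟨L, hL⟩ : ∃ L, L = Real.log y := ⟨_, rfl⟩
    have hyL : y = Real.exp L := by rw [hL, Real.exp_log hy0]
    have hL1 : 80 + 6 * (b + 1) ≤ L := by
      rw [hL, Real.le_log_iff_exp_le hy0]
      exact hy1
    rw [← hL]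
    apply Hd_low hb.le hy0.le (p := L / 4 - 2) (by linarith)
    intro u hu1 hu2
    have hu0 : 0 ≤ u := by linarith
    have huL : u ≤ L := by linarith
    have h1 := W_low b hu0
    have h2 : Real.exp (y * u) / 2 ≤ Real.cosh (y * u) := by
      rw [Real.cosh_eq]
      have := Real.exp_pos (-(y * u))
      linarith
    have h3 : Real.pi * Real.exp (4 * u) ≤ y := by
      have h4 : Real.exp (4 * u) ≤ y * Real.exp (-4) := by
        rw [hyL, ← Real.exp_add]
        apply Real.exp_le_exp.2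
        linarith
      have h5 : Real.exp (-4) ≤ 1 / 4 := by
        rw [Real.exp_neg, ← one_div]
        apply one_div_le_one_div_of_le (by norm_num)
        linarith [Real.add_one_le_exp (4 : ℝ)]
      calc Real.pi * Real.exp (4 * u) ≤ 4 * (y * (1 / 4)) := by
            have := Real.pi_le_four
            have := Real.pi_pos
            have h6 : y * Real.exp (-4) ≤ y * (1 / 4) := by gcongr
            gcongr
            linarith
        _ = y := by ring
    have h4 : b * u ^ 2 ≤ b * L ^ 2 := by gcongr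
    have h5 : b * L ^ 2 + 1 ≤ y := by
      rw [hyL]
      have h6 := Real.pow_div_factorial_le_exp L (by linarith) 3
      have h7 : ((3 : ℕ).factorial : ℝ) = 6 := by norm_num [Nat.factorial]
      rw [h7] at h6
      refine le_trans ?_ h6
      have h8 : 6 * (b + 1) * L ^ 2 ≤ L * L ^ 2 := by
        apply mul_le_mul_of_nonneg_right _ (by positivity)
        linarith
      have h9 : 1 ≤ L ^ 2 := by nlinarith
      have h10 : L ^ 3 = L * L ^ 2 := by ring
      rw [h10]
      linarith
    have h6 : y / 5 * L + Real.log 2 ≤ -b * u ^ 2 - Real.pi * Real.exp (4 * u) + y * u := by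
      have h7 : Real.log 2 ≤ 1 := by linarith [Real.log_two_lt_d9]
      have h8 : y * (L / 4 - 2) ≤ y * u := by gcongr
      have h9 : 80 * y ≤ L * y := by
        apply mul_le_mul_of_nonneg_right _ hy0.le
        linarith
      nlinarith
    calc Real.exp (y / 5 * L) = Real.exp (y / 5 * L + Real.log 2) / 2 := by
          rw [Real.exp_add, Real.exp_log (by norm_num)]
          ring
      _ ≤ Real.exp (-b * u ^ 2 - Real.pi * Real.exp (4 * u) + y * u) / 2 := by gcongr
      _ = Real.exp (-b * u ^ 2 - Real.pi * Real.exp (4 * u)) * (Real.exp (y * u) / 2) := by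
          rw [Real.exp_add]
          ring
      _ ≤ _ := by
          apply mul_le_mul h1 h2 (by positivity) (W_pos b u).le
  · have h1 : Real.exp (-b - Real.pi * Real.exp 4) ≤ ‖J4H2.DN.Hd (-b) (I * ((0 : ℝ) : ℂ))‖ := by
      apply Hd_low hb.le le_rfl (p := 0) le_rfl
      intro u hu1 hu2
      rw [zero_mul, Real.cosh_zero, mul_one]
      refine le_trans ?_ (W_low b hu1)
      apply Real.exp_le_exp.2
      have h2 : Real.exp (4 * u) ≤ Real.exp 4 := Real.exp_le_exp.2 (by linarith)
      have h3 : b * u ^ 2 ≤ b * 1 := by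
        apply mul_le_mul_of_nonneg_left _ hb.le
        nlinarith
      have h4 : Real.pi * Real.exp (4 * u) ≤ Real.pi * Real.exp 4 := by
        have := Real.pi_pos
        gcongr
      linarith
    intro h0
    rw [ofReal_zero, mul_zero, h0, norm_zero] at h1
    exact absurd h1 (not_le.2 (Real.exp_pos _))

end Pool.Agent.J4H31.NG
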