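import Pool.Agent.J4H4.NG.Stm
import Pool.Agent.J4H8.DN.X
import Pool.Agent.E8helper52.OR.Contour

/-! # helper31: (SH), the shift of the line -/

set_option autoImplicit false

namespace Pool.Agent.J4H31.NG

open Complex MeasureTheory Filter Topology Set
open Pool.Agent.J4H1.JP (Xi)
open Pool.Agent.J4H4.NG

/-- the integrand -/
noncomputable def G (a η v : ℝ) (z : ℂ) : ℂ := Xi (z + v * I) * cexp ((z - (3 / 2 + η)) ^ 2 / (4 * a))

lemma G_diff (a η v : ℝ) : Differentiable ℂ (G a η v) := by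
  have h1 := Pool.Agent.J4H1.JP.diff_Xi
  have h2 : Differentiable ℂ fun z : ℂ => Xi (z + v * I) := h1.comp (differentiable_id.add_const _)
  unfold G
  exact h2.mul (by fun_prop)

lemma G_bd {a : ℝ} (ha : 0 < a) (η v : ℝ) : ∃ C : ℝ, 0 ≤ C ∧ ∀ z : ℂ, |z.re - (3 / 2 + η)| ≤ |η| → 1 ≤ |z.im| →
    ‖G a η v z‖ ≤ C / z.im ^ 2 := by
  obtain ⟨δ, hδ⟩ : ∃ δ : ℝ, δ = 1 / (16 * a) := ⟨_, rfl⟩
  have hδ0 : 0 < δ := by rw [hδ]; positivity
  obtain ⟨K, hK, hb⟩ := Pool.Agent.J4H8.DN.slow_Xi.2 δ hδ0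
  refine ⟨K * Real.exp (δ * ((3 / 2 + 2 * |η|) ^ 2 + 2 * v ^ 2) + η ^ 2 / (4 * a)) * (8 * a), by positivity, fun z hz hy => ?_⟩
  have hy2 : 0 < z.im ^ 2 := by
    have : z.im ≠ 0 := by
      intro h
      rw [h] at hy
      norm_num at hy
    positivity
  have hre : |z.re| ≤ 3 / 2 + 2 * |η| := by
    have h1 := abs_le.1 hz
    have h2 := neg_abs_le η
    have h3 := le_abs_self η
    rw [abs_le]
    constructor <;> linarith [h1.1, h1.2]
  have h1 : ‖z + v * I‖ ^ 2 ≤ (3 / 2 + 2 * |η|) ^ 2 + 2 * z.im ^ 2 + 2 * v ^ 2 := by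
    rw [← normSq_eq_norm_sq, normSq_apply]
    have e1 : (z + v * I).re = z.re := by simp
    have e2 : (z + v * I).im = z.im + v := by simp
    rw [e1, e2]
    have h2 : z.re ^ 2 ≤ (3 / 2 + 2 * |η|) ^ 2 := by
      rw [← sq_abs z.re]
      exact pow_le_pow_left₀ (abs_nonneg _) hre 2
    nlinarith [sq_nonneg (z.im - v)]
  have h2 : ‖Xi (z + v * I)‖ ≤ K * Real.exp (δ * ((3 / 2 + 2 * |η|) ^ 2 + 2 * v ^ 2) + z.im ^ 2 / (8 * a)) := by
    refine (hb _).trans ?_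
    have h3 : δ * ‖z + v * I‖ ^ 2 ≤ δ * ((3 / 2 + 2 * |η|) ^ 2 + 2 * v ^ 2) + z.im ^ 2 / (8 * a) := by
      calc δ * ‖z + v * I‖ ^ 2 ≤ δ * ((3 / 2 + 2 * |η|) ^ 2 + 2 * z.im ^ 2 + 2 * v ^ 2) := by gcongr
        _ = δ * ((3 / 2 + 2 * |η|) ^ 2 + 2 * v ^ 2) + 2 * δ * z.im ^ 2 := by ring
        _ = _ := by
            rw [hδ]
            congr 1
            field_simp
            ring
    gcongr
  have h4 : ‖cexp ((z - (3 / 2 + η)) ^ 2 / (4 * a))‖ ≤ Real.exp (η ^ 2 / (4 * a) - z.im ^ 2 / (4 * a)) := by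
    rw [norm_exp]
    apply Real.exp_le_exp.2
    have e : ((z - (3 / 2 + η)) ^ 2 / (4 * a)).re = ((z.re - (3 / 2 + η)) ^ 2 - z.im ^ 2) / (4 * a) := by
      have e1 : (z - (3 / 2 + η)) ^ 2 / (4 * a) = (z - ((3 / 2 + η : ℝ) : ℂ)) ^ 2 / ((4 * a : ℝ) : ℂ) := by push_cast; rfl
      rw [e1, div_ofReal_re]
      congr 1
      rw [pow_two, mul_re, sub_re, sub_im, ofReal_re, ofReal_im]
      ring
    rw [e, ← sub_div]
    have h5 : (z.re - (3 / 2 + η)) ^ 2 ≤ η ^ 2 := by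
      rw [← sq_abs (z.re - (3 / 2 + η)), ← sq_abs η]
      exact pow_le_pow_left₀ (abs_nonneg _) hz 2
    gcongr
  have h6 : Real.exp (-(z.im ^ 2 / (8 * a))) ≤ 8 * a / z.im ^ 2 := by
    have h7 := Real.add_one_le_exp (z.im ^ 2 / (8 * a))
    have h8 : 0 < z.im ^ 2 / (8 * a) := by positivity
    rw [Real.exp_neg]
    calc (Real.exp (z.im ^ 2 / (8 * a)))⁻¹ ≤ (z.im ^ 2 / (8 * a))⁻¹ := inv_anti₀ h8 (by linarith)
      _ = 8 * a / z.im ^ 2 := inv_div _ _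
  unfold G
  rw [norm_mul]
  calc ‖Xi (z + v * I)‖ * ‖cexp ((z - (3 / 2 + η)) ^ 2 / (4 * a))‖ ≤
      (K * Real.exp (δ * ((3 / 2 + 2 * |η|) ^ 2 + 2 * v ^ 2) + z.im ^ 2 / (8 * a))) *
        Real.exp (η ^ 2 / (4 * a) - z.im ^ 2 / (4 * a)) := by gcongr
    _ = K * Real.exp (δ * ((3 / 2 + 2 * |η|) ^ 2 + 2 * v ^ 2) + η ^ 2 / (4 * a)) * Real.exp (-(z.im ^ 2 / (8 * a))) := by
        rw [mul_assoc, mul_assoc, ← Real.exp_add, ← Real.exp_add]
        congr 2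
        field_simp
        ring
    _ ≤ K * Real.exp (δ * ((3 / 2 + 2 * |η|) ^ 2 + 2 * v ^ 2) + η ^ 2 / (4 * a)) * (8 * a / z.im ^ 2) := by gcongr
    _ = _ := by ring

lemma G_shift {a : ℝ} (ha : 0 < a) (η v : ℝ) :
    ∫ y : ℝ, G a η v (((3 / 2 + η : ℝ) : ℂ) + y * I) = ∫ y : ℝ, G a η v (((3 / 2 : ℝ) : ℂ) + y * I) := by
  obtain ⟨C, hC, hb⟩ := G_bd ha η v
  rcases le_total 0 η with h | h
  · refine (Pool.Agent.E8helper52.OR.strip_shift (f := G a η v) (a := 3 / 2) (b := 3 / 2 + η) (by linarith)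
      (fun z _ _ => G_diff a η v z) hC le_rfl (fun z h1 h2 h3 => hb z ?_ h3)).symm
    rw [abs_of_nonneg h, abs_le]
    constructor <;> linarith
  · refine Pool.Agent.E8helper52.OR.strip_shift (f := G a η v) (a := 3 / 2 + η) (b := 3 / 2) (by linarith)
      (fun z _ _ => G_diff a η v z) hC le_rfl (fun z h1 h2 h3 => hb z ?_ h3)
    rw [abs_of_nonpos h, abs_le]
    constructor <;> linarith

theorem t_SH : S_SH := by
  intro a ha η v
  have hsa : 0 < Real.sqrt a := Real.sqrt_pos.2 ha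
  have hsa2 : Real.sqrt a ^ 2 = a := Real.sq_sqrt ha.le
  have hsp : 0 < Real.sqrt Real.pi := Real.sqrt_pos.2 Real.pi_pos
  have hac : (a : ℂ) ≠ 0 := by exact_mod_cast ha.ne'
  have h1 : ∀ x : ℝ, ((Real.exp (-x ^ 2) : ℝ) : ℂ) *
      Xi (((3 / 2 + η : ℝ) : ℂ) + I * v + ((2 * Real.sqrt a * x : ℝ) : ℂ) * I) =
      G a η v (((3 / 2 + η : ℝ) : ℂ) + ((2 * Real.sqrt a * x : ℝ) : ℂ) * I) := by
    intro x
    unfold G
    rw [mul_comm]
    congr 1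
    · congr 1
      ring
    · rw [ofReal_exp]
      congr 1
      have e : ((Real.sqrt a : ℝ) : ℂ) ^ 2 = a := by
        rw [← ofReal_pow, hsa2]
      push_cast
      field_simp
      ring_nf
      rw [I_sq, e]
      ring
  have h2 : ∫ x : ℝ, G a η v (((3 / 2 + η : ℝ) : ℂ) + ((2 * Real.sqrt a * x : ℝ) : ℂ) * I) =
      |(2 * Real.sqrt a)⁻¹| • ∫ y : ℝ, G a η v (((3 / 2 + η : ℝ) : ℂ) + (y : ℂ) * I) :=
    Measure.integral_comp_mul_left (fun y : ℝ => G a η v (((3 / 2 + η : ℝ) : ℂ) + (y : ℂ) * I)) (2 * Real.sqrt a)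
  have h3 : ∀ u : ℝ, G a η v (((3 / 2 : ℝ) : ℂ) + u * I) = ((Real.exp (η ^ 2 / (4 * a)) : ℝ) : ℂ) *
      (Xi (3 / 2 + I * ((v + u : ℝ) : ℂ)) * cexp (-(u : ℂ) ^ 2 / (4 * a) - I * u * η / (2 * a))) := by
    intro u
    unfold G
    rw [mul_left_comm, ofReal_exp, ← Complex.exp_add]
    congr 1
    · congr 1
      push_cast
      ring
    · congr 1
      push_cast
      field_simp
      ring_nf
      rw [I_sq]
      ring
  unfold EE
  simp_rw [h1]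
  rw [h2, G_shift ha]
  simp_rw [h3]
  rw [integral_const_mul]
  have h4 : Real.sqrt (4 * Real.pi * a) = 2 * Real.sqrt a * Real.sqrt Real.pi := by
    rw [show 4 * Real.pi * a = 2 ^ 2 * (a * Real.pi) by ring, Real.sqrt_mul (by norm_num), Real.sqrt_sq (by norm_num),
      Real.sqrt_mul ha.le]
    ring
  rw [h4, abs_of_pos (by positivity), real_smul]
  push_cast
  have hsac : ((Real.sqrt a : ℝ) : ℂ) ≠ 0 := by exact_mod_cast hsa.ne'
  have hspc : ((Real.sqrt Real.pi : ℝ) : ℂ) ≠ 0 := by exact_mod_cast hsp.ne'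
  field_simp

end Pool.Agent.J4H31.NG
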